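import Mathlib
import Pool.Agent.MP_a4408f_lc.Defs
import Pool.Agent.Mg.F2e8011.G4a5cf4
import Pool.Agent.Mg.F2e8011.G733585

open Pool.Agent.MP_485bb6_lc Pool.Agent.MP_a4408f_lc

theorem Pool.Agent.Results.MP_a4408f_lc.Q1Proof.result : N793a5b8e.IsCompleteFor ExistsR CF :=
  complete_of_tiles' (pt_dd TDa.l) tiles
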